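import Pool.Agent.H43.PC.Dom
import Pool.Agent.H43.PC.Smo
import Pool.Graph.R_pool_sql_team_seeded_2aa45f1a.Results.MP_b2b689_ag.HypergraphCubics

/-!
# Density of the regulator and nearest-neighbour systems on the square lattice

The schemes `X / ℂ` which can be defined over a number field are, together with their conjugates,
the connected components of the complexifications `X_ℂ` of the schemes `X` over `ℚ`; so question Q1
is the question for the complexifications of all smooth schemes `X` over `ℚ`. The setting is the one
of the structures `RegData` and `IsReg`: `C` is the category of geometric motives over `ℂ` with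
rational coefficients, `C'` the derived category of (polarizable) mixed Hodge structures, `M X` and
`Mc X` the motive and the motive with compact support of `X_ℂ`, `T p q = ℚ(p)[q]`, and `F : C ⥤ C'`
the realization functor, which gives the regulators
`H^i_M(X_ℂ, ℚ(j)) = Hom_C(M X, T j i) → Hom_C'(F (M X), F (T j i)) = H^i_H(X_ℂ, ℚ(j))`.
`DensM D X n` says that the image of the regulator is dense on `K_n(X_ℂ)`, that is in
`H^i_H(X_ℂ, ℚ(j))` for all `i`, `j` with `2 j - i = n`.

A *gate* is one of the polynomials `x_a`, `x_a - 1`, `x_a - x_b`, `x_a + x_b - x_c`, `x_a x_b - x_c`.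
A *lattice system* is a finite set of variables and gates `p_g` with different places in the square
lattice `ℤ²`, such that each gate is a neighbour of each of its (at most three, different) variables
and each variable is in at most three gates. Its *lattice cubic* is the smooth affine cubic
hypersurface `Z : ∑_g t_g p_g(x) = 1` over `ℚ`.

**Theorem.** (1) For every smooth scheme `X` over `ℚ` there is one lattice cubic `Z` such that for
all `n` the density of the image of the regulator on `K_(n+1)(Z)` implies the density on `K_n(X)`.

(2) For every `m` the image of the regulator is dense for all smooth schemes which can be defined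
over a number field, and in all degrees, if and only if it is dense on `K_n(Z)` for all lattice
cubics `Z` and all `n ≥ m`.
-/

set_option autoImplicit false

open CategoryTheory CategoryTheory.Limits AlgebraicGeometry Pretriangulated Pool.Agent.Y116.UV
  Pool.Agent.Q193.LT Pool.Agent.Q115.DU Pool.Agent.H43.PC
  Pool.Agent.Results.MP_b2b689_ag.HypergraphCubics

namespace Pool.Agent.Results.MP_b2b689_ag.LatticeCubics

universe v u v' u'

variable {C : Type u} [Category.{v} C] [Preadditive C] [HasZeroObject C] [HasShift C ℤ]
  [∀ n : ℤ, (shiftFunctor C n).Additive] [Pretriangulated C] {C' : Type u'} [Category.{v'} C']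
  {D : RegData C C'}

lemma isLat_ft {Z : Sch ℚ} (hZ : IsLat {0, 1} Z) : FT True Z := by
  obtain ⟨n, r, γ, -, rfl⟩ := hZ
  exact ft_aff True

/-- **Density of the regulator and lattice cubics.** -/
theorem result (hD : IsReg D) :
    (∀ Z : Sch ℚ, IsLat {0, 1} Z → Smooth Z.hom) ∧
    (∀ X : Sch ℚ, FT True X → Smooth X.hom →
      ∃ Z : Sch ℚ, IsLat {0, 1} Z ∧ ∀ n : ℤ, DensM D Z (n + 1) → DensM D X n) ∧
    ∀ m : ℤ, (∀ X : Sch ℚ, FT True X → Smooth X.hom → ∀ n, DensM D X n) ↔
      ∀ Z : Sch ℚ, IsLat {0, 1} Z → ∀ n, m ≤ n → DensM D Z n := by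
  have hP := pn_descends hD
  have haff : ∀ (A : Type) [CommRing A] [Algebra ℚ A] [Algebra.FiniteType ℚ A],
      ∃ Z : Sch ℚ, IsLat {0, 1} Z ∧ ∀ n : ℤ, DensM D Z (n + 1) → DensC D (aff ℚ A) n := by
    intro A _ _ _
    obtain ⟨n, r, γ, hγ, -, h⟩ := dom_lattice hD.compact (S := {0, 1}) (Or.inl rfl) (Or.inr rfl)
      (presents_frac frac_rat) A
    have hZ : IsLat {0, 1} (aff ℚ (HypG γ)) := ⟨n, r, γ, hγ, rfl⟩
    exact ⟨_, hZ, fun i hi => h _ hP i ((hD.duality _ _ (ft_aff True) (isLat_smooth hZ)).1 hi)⟩
  refine ⟨fun Z hZ => isLat_smooth hZ, ?_, ?_⟩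
  · intro X hX hs
    obtain ⟨A, _, _, _, r, e⟩ := hD.jouanolou X hX hs
    obtain ⟨Z, hZ, h⟩ := haff A
    exact ⟨Z, hZ, fun n hn => (hD.duality X n hX hs).2
      (desc_tw hP _ r (desc_iso hP e (h n hn)))⟩
  · intro m
    constructor
    · intro h Z hZ n _
      exact h _ (isLat_ft hZ) (isLat_smooth hZ) n
    · intro hH
      have key : ∀ (s : ℕ) (A : Type) [CommRing A] [Algebra ℚ A] [Algebra.FiniteType ℚ A]
          (n : ℤ), m - 1 - s ≤ n → DensC D (aff ℚ A) n := by
        intro s
        induction s with
        | zero =>
          intro A _ _ _ n hn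
          obtain ⟨Z, hZ, h⟩ := haff A
          exact h n (hH Z hZ (n + 1) (by push_cast at hn; omega))
        | succ s ih =>
          intro A _ _ _ n hn
          have := ft_laurent (R := ℚ) A
          have : Algebra.FiniteType ℚ (Polynomial A) :=
            Algebra.FiniteType.trans (S := A) inferInstance inferInstance
          obtain ⟨g, hg⟩ := split_open hD.compact _ _ (ft_aff True) (triple_zero ℚ A)
            (hD.compact.zero A)
          exact hP.shift n _ (hP.retract (n + 1) g _ hg
            (ih (LaurentPolynomial A) (n + 1) (by push_cast at hn; omega)))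
      intro X hX hs n
      obtain ⟨A, _, _, _, r, e⟩ := hD.jouanolou X hX hs
      exact (hD.duality X n hX hs).2
        (desc_tw hP _ r (desc_iso hP e (key (m - 1 - n).toNat A n (by omega))))

end Pool.Agent.Results.MP_b2b689_ag.LatticeCubics
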