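import Pool.Agent.H71.AR.Reg

/-!
# Density of the regulator and moduli spaces of line arrangements

A moduli space of line arrangements parametrises the arrangements which consist of the four lines
`X = 0`, `Y = 0`, `Z = 0`, `X + Y + Z = 0` and of `a` lines `X + x_i Y + y_i Z = 0` and `b` lines
`Y + z_j Z = 0` in the projective plane such that exactly the triples of lines in a given set `S` are
not concurrent. `ArrAlg k N` says that `N` is the algebra of functions on such a moduli space over `k`
(it represents the functor of these arrangements) and that the lines are pairwise distinct.

For a complex Chow motive `A` let `Q^{i,j}(A)` be the quotient of the absolute Hodge cohomology group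
`H^i_𝓗(A, ℚ(j))` by the closure of the image of the motivic cohomology group `H^i_𝓜(A, ℚ(j))`. This is an
additive functor of Chow motives. For a scheme `X` of finite type over `ℚ` the weight complex `W(X)` of
Gillet and Soulé is a complex of Chow motives over `ℚ`, so there are complexes `Q^{i,j}(W(X)_ℂ)`.

The proof uses a form of the universality theorem of Mnëv, Sturmfels and Lafforgue which preserves the
dimension: every integral affine scheme of finite type over `ℚ` has a non-empty smooth open subscheme
which is isomorphic to a moduli space of line arrangements (`Pool.Agent.H71.AR.exists_nice`).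
-/

set_option autoImplicit false

open CategoryTheory CategoryTheory.Limits AlgebraicGeometry Pool.Agent.Y116.UV
  Pool.Agent.Y101.Th Pool.Agent.H71.AR

namespace Pool.Agent.Results.MP_b2b689_ag.LineArrangements

universe v u v' u'

/-- **Density of the regulator and line arrangements.** Let `i` and `j` be integers and `d` a natural
number. The regulator `H^i_𝓜(X, ℚ(j)) ⟶ H^i_𝓗(X, ℚ(j))` has dense image for all smooth projective complex
schemes `X` of dimension at most `d` which can be defined over a number field if and only if the
complexes `Q^{i,j}(W(N)_ℂ)` are exact for all smooth integral moduli spaces `N` of line arrangements over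
`ℚ` of dimension at most `d`. -/
theorem result
    -- the Chow motives over `ℚ` and the weight complexes
    {M : Type u'} [Category.{v'} M] [Preadditive M] [HasZeroObject M] [HasBinaryBiproducts M]
    {D : WeightData ℚ M} (hD : IsWeight D)
    -- the complex Chow motives and the regulators
    {𝓒 : Type u} [Category.{v} 𝓒] [Preadditive 𝓒] {T : RegData.{v, u} 𝓒}
    -- the base change functor
    (b : M ⥤ 𝓒) [b.Additive] (hb : IsBaseCT D T b) (i j : ℤ) (d : ℕ) :
    (∀ X : Sch ℂ, SmProj X → OverNumberField X → topologicalKrullDim X.left ≤ d →
      DenseReg T i j (T.h X)) ↔
    ∀ (N : Type) [CommRing N] [IsDomain N] [Algebra ℚ N] [Algebra.Smooth ℚ N], ArrAlg ℚ N →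
      ringKrullDim N ≤ d → ∀ n : ℤ, IsZero (wtH D (b ⋙ RegQuot T i j) n (aff ℚ N)) :=
  reg_dim hD hb i j d

end Pool.Agent.Results.MP_b2b689_ag.LineArrangements
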